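import Pool.Agent.N922.PQ.Def

/-!
# Project PQ, part TCH: choice of residues (helper954)
-/

set_option autoImplicit false

namespace Pool.Agent.N954.PQ

open Pool.Agent.N922.PQ

lemma no_zero (P : ℤ) (hP : IsPr P) : ∃ b : ℤ, ∀ z : ℤ, ¬ P ∣ z ^ 3 + (-1) * z + b := by
  obtain ⟨h0, hp⟩ := hP
  obtain ⟨p, rfl⟩ : ∃ p : ℕ, P = p := ⟨P.toNat, (Int.toNat_of_nonneg h0.le).symm⟩
  have hpn : p.Prime := Nat.prime_iff_prime_int.2 hp
  have : Fact p.Prime := ⟨hpn⟩
  let f : ZMod p → ZMod p := fun x => x ^ 3 - x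
  have hni : ¬ Function.Injective f := by
    intro h
    have h1 : f 0 = f 1 := by simp [f]
    exact zero_ne_one (h h1)
  have hns : ¬ Function.Surjective f := fun h => hni (Finite.injective_iff_surjective.2 h)
  unfold Function.Surjective at hns
  push Not at hns
  obtain ⟨y, hy⟩ := hns
  refine ⟨-(y.val : ℤ), fun z hz => hy (z : ZMod p) ?_⟩
  have h1 := (ZMod.intCast_zmod_eq_zero_iff_dvd _ p).2 hz
  push_cast at h1
  rw [ZMod.natCast_zmod_val] at h1
  show (z : ZMod p) ^ 3 - (z : ZMod p) = y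
  linear_combination h1

theorem tch : S_TCH := by
  classical
  intro T₀ hT₀
  have h2 : IsPr 2 := ⟨by norm_num, Int.prime_two⟩
  have h3 : IsPr 3 := ⟨by norm_num, Int.prime_three⟩
  have hex : ∀ P : ℤ, ∃ b : ℤ, IsPr P → ∀ z : ℤ, ¬ P ∣ z ^ 3 + (-1) * z + b := by
    intro P
    by_cases hP : IsPr P
    · obtain ⟨b, hb⟩ := no_zero P hP
      exact ⟨b, fun _ => hb⟩
    · exact ⟨0, fun h => absurd h hP⟩
  choose B hB using hex
  refine ⟨insert 2 (insert 3 T₀), fun _ => -1, B, ?_, ?_, ?_, ?_⟩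
  · intro P hP
    exact Finset.mem_insert_of_mem (Finset.mem_insert_of_mem hP)
  · exact Finset.mem_insert_self _ _
  · exact Finset.mem_insert_of_mem (Finset.mem_insert_self _ _)
  · intro P hP
    have hPr : IsPr P := by
      rcases Finset.mem_insert.1 hP with rfl | hP
      · exact h2
      rcases Finset.mem_insert.1 hP with rfl | hP
      · exact h3
      · exact hT₀ P hP
    exact ⟨hPr, hB P hPr⟩

end Pool.Agent.N954.PQ
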